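import Pool.Agent.Helper21.TC.WallDefs

/-!
Probability of the blocking events: independence of the blocks.
-/

set_option autoImplicit false

open MeasureTheory Filter Topology

namespace Pool.Agent.Helper69.TC

namespace WallProb

lemma siteLaw_some {p q : ℝ} {c : Color} (hc : c ≠ Color.green) :
    siteLaw p q {some c} = ENNReal.ofReal p := by
  unfold siteLaw
  cases c
  · simp [Measure.add_apply, Measure.smul_apply, Set.indicator]
  · simp [Measure.add_apply, Measure.smul_apply, Set.indicator]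
  · exact absurd rfl hc

lemma siteLaw_none {p q : ℝ} : siteLaw p q {none} = ENNReal.ofReal (1 - 2 * p - q) := by
  unfold siteLaw
  simp [Measure.add_apply, Measure.smul_apply, Set.indicator]

lemma siteLaw_prob {p q : ℝ} (hp : 0 ≤ p) (hq : 0 ≤ q) (hpq : 2 * p + q ≤ 1) :
    IsProbabilityMeasure (siteLaw p q) := by
  constructor
  unfold siteLaw
  simp only [Measure.add_apply, Measure.smul_apply, measure_univ, smul_eq_mul, mul_one]
  rw [← ENNReal.ofReal_add hp hp, ← ENNReal.ofReal_add (by linarith) hq,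
    ← ENNReal.ofReal_add (by linarith) (by linarith)]
  rw [show p + p + q + (1 - 2 * p - q) = 1 by ring, ENNReal.ofReal_one]

/-- events depending on disjoint sets of coordinates are independent -/
lemma indep_sets {ι : Type} [DecidableEq ι] (ν : Measure (Option Color)) [IsProbabilityMeasure ν]
    (S T : Finset ι) (hST : Disjoint S T) (A B : Set (ι → Option Color))
    (hA : ∀ s s' : ι → Option Color, (∀ i ∈ S, s i = s' i) → s ∈ A → s' ∈ A)
    (hB : ∀ s s' : ι → Option Color, (∀ i ∈ T, s i = s' i) → s ∈ B → s' ∈ B) :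
    (Measure.infinitePi fun _ : ι => ν) (A ∩ B) =
      (Measure.infinitePi fun _ : ι => ν) A * (Measure.infinitePi fun _ : ι => ν) B := by
  have h1 : ProbabilityTheory.iIndepFun (fun (i : ι) (ω : ι → Option Color) => ω i)
      (Measure.infinitePi fun _ : ι => ν) :=
    ProbabilityTheory.iIndepFun_infinitePi (X := fun _ x => x) (fun _ => measurable_id)
  have h2 := h1.indepFun_finset S T hST (fun i => measurable_pi_apply i)
  let ext (S : Finset ι) (f : S → Option Color) : ι → Option Color := fun i =>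
    if h : i ∈ S then f ⟨i, h⟩ else none
  have hext : ∀ (S : Finset ι) (s : ι → Option Color), ∀ i ∈ S,
      ext S (fun j : S => s j) i = s i := by
    intro S s i hi
    simp only [ext]
    rw [dif_pos hi]
  have hA' : A = (fun (a : ι → Option Color) (i : S) => a i) ⁻¹' {f | ext S f ∈ A} := by
    ext s
    simp only [Set.mem_preimage, Set.mem_ofPred_eq]
    exact ⟨hA _ _ (fun i hi => (hext S s i hi).symm), hA _ _ (fun i hi => hext S s i hi)⟩
  have hB' : B = (fun (a : ι → Option Color) (i : T) => a i) ⁻¹' {f | ext T f ∈ B} := by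
    ext s
    simp only [Set.mem_preimage, Set.mem_ofPred_eq]
    exact ⟨hB _ _ (fun i hi => (hext T s i hi).symm), hB _ _ (fun i hi => hext T s i hi)⟩
  rw [hA', hB']
  apply h2.measure_inter_preimage_eq_mul
  · exact (Set.toFinite _).measurableSet
  · exact (Set.toFinite _).measurableSet

/-- the block -/
noncomputable def blk (t : ℕ) (b : Site) (k : ℕ) : Finset Site :=
  Finset.Ico (b.1 + 8 * t * k) (b.1 + 8 * t * (k + 1)) ×ˢ Finset.Ico (b.2 - 4 * t) (b.2 + 4 * t)

/-- the central part of the block -/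
noncomputable def cen (t : ℕ) (b : Site) (k : ℕ) : Finset Site :=
  Finset.Ico (b.1 + 8 * t * k + 2 * t) (b.1 + 8 * t * k + 6 * t) ×ˢ
    Finset.Ico (b.2 - t) (b.2 + t)

lemma card_blk (t : ℕ) (b : Site) (k : ℕ) : (blk t b k).card = 64 * t ^ 2 := by
  unfold blk
  rw [Finset.card_product, Int.card_Ico, Int.card_Ico]
  have h1 : (b.1 + 8 * t * (k + 1) - (b.1 + 8 * t * k) : ℤ) = ((8 * t : ℕ) : ℤ) := by
    push_cast
    ring
  have h2 : (b.2 + 4 * t - (b.2 - 4 * t) : ℤ) = ((8 * t : ℕ) : ℤ) := by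
    push_cast
    ring
  rw [h1, h2, Int.toNat_natCast]
  ring

lemma card_cen (t : ℕ) (b : Site) (k : ℕ) : (cen t b k).card = 8 * t ^ 2 := by
  unfold cen
  rw [Finset.card_product, Int.card_Ico, Int.card_Ico]
  have h1 : (b.1 + 8 * t * k + 6 * t - (b.1 + 8 * t * k + 2 * t) : ℤ) = ((4 * t : ℕ) : ℤ) := by
    push_cast
    ring
  have h2 : (b.2 + t - (b.2 - t) : ℤ) = ((2 * t : ℕ) : ℤ) := by
    push_cast
    ring
  rw [h1, h2, Int.toNat_natCast, Int.toNat_natCast]
  ring

lemma mem_blk {t : ℕ} {b : Site} {k : ℕ} {w : Site} : w ∈ blk t b k ↔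
    (b.1 + 8 * t * k ≤ w.1 ∧ w.1 < b.1 + 8 * t * (k + 1)) ∧
      (b.2 - 4 * t ≤ w.2 ∧ w.2 < b.2 + 4 * t) := by
  unfold blk
  rw [Finset.mem_product, Finset.mem_Ico, Finset.mem_Ico]

lemma mem_cen {t : ℕ} {b : Site} {k : ℕ} {w : Site} : w ∈ cen t b k ↔
    (b.1 + 8 * t * k + 2 * t ≤ w.1 ∧ w.1 < b.1 + 8 * t * k + 6 * t) ∧
      (b.2 - t ≤ w.2 ∧ w.2 < b.2 + t) := by
  unfold cen
  rw [Finset.mem_product, Finset.mem_Ico, Finset.mem_Ico]

lemma cen_sub {t : ℕ} {b : Site} {k : ℕ} : cen t b k ⊆ blk t b k := by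
  intro w hw
  rw [mem_cen] at hw
  rw [mem_blk]
  have h1 : (8 * t * (k + 1) : ℤ) = 8 * t * k + 8 * t := by ring
  rw [h1]
  omega

lemma blockR_iff {c2 : Color} {t : ℕ} {b : Site} {k : ℕ} {s : Site → Option Color} :
    BlockR c2 t b k s ↔ ∃ r ∈ cen t b k, s r = some c2 ∧ ∀ w ∈ blk t b k, w ≠ r → s w = none := by
  constructor
  · rintro ⟨r, ⟨h1, h2, h3, h4⟩, h5, h6⟩
    refine ⟨r, mem_cen.2 ⟨⟨h1, h2⟩, h3, h4⟩, h5, ?_⟩
    intro w hw hwr
    obtain ⟨⟨h7, h8⟩, h9, h10⟩ := mem_blk.1 hw
    exact h6 w h7 h8 h9 h10 hwr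
  · rintro ⟨r, hr, h5, h6⟩
    obtain ⟨⟨h1, h2⟩, h3, h4⟩ := mem_cen.1 hr
    refine ⟨r, ⟨h1, h2, h3, h4⟩, h5, ?_⟩
    intro w h7 h8 h9 h10 hwr
    exact h6 w (mem_blk.2 ⟨⟨h7, h8⟩, h9, h10⟩) hwr

lemma blockR_congr {c2 : Color} {t : ℕ} {b : Site} {k : ℕ} {s s' : Site → Option Color}
    (h : ∀ w ∈ blk t b k, s w = s' w) (hs : BlockR c2 t b k s) : BlockR c2 t b k s' := by
  rw [blockR_iff] at hs ⊢
  obtain ⟨r, hr, h5, h6⟩ := hs
  refine ⟨r, hr, ?_, ?_⟩
  · rw [← h r (cen_sub hr)]
    exact h5
  · intro w hw hwr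
    rw [← h w hw]
    exact h6 w hw hwr

/-- lower bound for the probability of a blocking event -/
lemma block_prob {p q : ℝ} (hp : 0 ≤ p) (hq : 0 ≤ q) (hpq : 2 * p + q ≤ 1) (e : Site ≃ Site)
    {c2 : Color} (hc2 : c2 ≠ Color.green) (t : ℕ) (b : Site) (k : ℕ) :
    8 * t ^ 2 * (p * (1 - 2 * p - q) ^ (64 * t ^ 2 - 1)) ≤
      (Measure.infinitePi fun _ : Site => siteLaw p q).real
        {s | BlockR c2 t b k (fun z => s (e z))} := by
  classical
  have := siteLaw_prob hp hq hpq
  set μ := Measure.infinitePi fun _ : Site => siteLaw p q with hμ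
  set E : Site → Set (Site → Option Color) := fun r =>
    Set.pi ((blk t b k).map e.toEmbedding : Finset Site)
      (fun w => if w = e r then {some c2} else {none}) with hE
  have hmem : ∀ r s, s ∈ E r ↔ ∀ w ∈ blk t b k, s (e w) ∈
      (if w = r then ({some c2} : Set (Option Color)) else {none}) := by
    intro r s
    rw [hE]
    simp only [Set.mem_pi, Finset.mem_coe, Finset.mem_map, Equiv.toEmbedding_apply,
      forall_exists_index, and_imp, forall_apply_eq_imp_iff₂, e.injective.eq_iff]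
  have hEq : {s : Site → Option Color | BlockR c2 t b k (fun z => s (e z))} =
      ⋃ r ∈ cen t b k, E r := by
    ext s
    simp only [Set.mem_iUnion, exists_prop, hmem]
    change BlockR c2 t b k (fun z => s (e z)) ↔ _
    rw [blockR_iff]
    constructor
    · rintro ⟨r, hr, h1, h2⟩
      refine ⟨r, hr, ?_⟩
      intro w hw
      by_cases hwr : w = r
      · rw [if_pos hwr, hwr]
        exact h1
      · rw [if_neg hwr]
        exact h2 w hw hwr
    · rintro ⟨r, hr, h1⟩
      refine ⟨r, hr, ?_, ?_⟩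
      · have := h1 r (cen_sub hr)
        rw [if_pos rfl] at this
        exact this
      · intro w hw hwr
        have := h1 w hw
        rw [if_neg hwr] at this
        exact this
  have hmeasE : ∀ r, MeasurableSet (E r) := by
    intro r
    apply MeasurableSet.pi (Finset.countable_toSet _)
    intro w _
    exact MeasurableSet.of_discrete
  have hval : ∀ r ∈ cen t b k, μ (E r) = ENNReal.ofReal (p * (1 - 2 * p - q) ^ (64 * t ^ 2 - 1)) := by
    intro r hr
    rw [hE, hμ]
    simp only
    rw [Measure.infinitePi_pi _ (fun _ _ => MeasurableSet.of_discrete), Finset.prod_map]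
    simp only [Equiv.toEmbedding_apply, e.injective.eq_iff]
    rw [← Finset.mul_prod_erase _ _ (cen_sub hr), if_pos rfl, siteLaw_some hc2]
    have h1 : ∀ w ∈ (blk t b k).erase r, siteLaw p q
        (if w = r then ({some c2} : Set (Option Color)) else {none}) =
        ENNReal.ofReal (1 - 2 * p - q) := by
      intro w hw
      rw [if_neg (Finset.ne_of_mem_erase hw), siteLaw_none]
    rw [Finset.prod_congr rfl h1, Finset.prod_const, Finset.card_erase_of_mem (cen_sub hr),
      card_blk, ENNReal.ofReal_mul hp, ENNReal.ofReal_pow (by linarith)]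
  have hdis : (cen t b k : Set Site).PairwiseDisjoint E := by
    intro r hr r' hr' hrr
    rw [Function.onFun, Set.disjoint_left]
    intro s hs hs'
    rw [hmem] at hs hs'
    have h1 := hs r (cen_sub hr)
    have h2 := hs' r (cen_sub hr)
    rw [if_pos rfl, Set.mem_singleton_iff] at h1
    rw [if_neg hrr, Set.mem_singleton_iff, h1] at h2
    exact absurd h2 (by simp)
  rw [hEq, measureReal_def, measure_biUnion_finset hdis (fun r _ => hmeasE r),
    Finset.sum_congr rfl hval, Finset.sum_const, card_cen, nsmul_eq_mul, ENNReal.toReal_mul,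
    ENNReal.toReal_ofReal (mul_nonneg hp (pow_nonneg (by linarith) _)), ENNReal.toReal_natCast]
  push_cast
  exact le_refl _

lemma one_sub_ge {x : ℝ} (h0 : 0 ≤ x) (h1 : x ≤ 1 / 2) : Real.exp (-(2 * x)) ≤ 1 - x := by
  rw [Real.exp_neg, inv_le_comm₀ (Real.exp_pos _) (by linarith)]
  have h2 : 2 * x + 1 ≤ Real.exp (2 * x) := Real.add_one_le_exp _
  refine le_trans ?_ h2
  rw [inv_le_comm₀ (by linarith) (by linarith), inv_le_iff_one_le_mul₀ (by linarith)]
  nlinarith

/-- numerical estimate -/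
lemma numeric {c p : ℝ} (hc : 0 < c) (hp : 0 < p) (hp1 : p ≤ 1) (hp2 : (2 + c) * p ≤ 1 / 2) :
    Real.exp (-(512 * (2 + c))) ≤ 8 * (⌈1 / √p⌉₊ : ℝ) ^ 2 *
      (p * (1 - 2 * p - c * p) ^ (64 * ⌈1 / √p⌉₊ ^ 2 - 1)) := by
  set t := ⌈1 / √p⌉₊ with ht
  have hs : 0 < √p := Real.sqrt_pos.2 hp
  have hss : √p * √p = p := Real.mul_self_sqrt hp.le
  have h1 : 1 / √p ≤ t := Nat.le_ceil _
  have h2 : (t : ℝ) < 1 / √p + 1 := Nat.ceil_lt_add_one (by positivity)
  have h3 : (1 : ℝ) ≤ 1 / √p := by
    rw [le_div_iff₀ hs, one_mul]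
    exact Real.sqrt_le_one.2 hp1
  have h4 : 1 ≤ (t : ℝ) ^ 2 * p := by
    have h5 : 1 / √p * (1 / √p) * p = 1 := by
      calc 1 / √p * (1 / √p) * p = 1 / √p * (1 / √p) * (√p * √p) := by rw [hss]
        _ = 1 := by field_simp
    rw [← h5]
    apply mul_le_mul_of_nonneg_right _ hp.le
    rw [sq]
    exact mul_le_mul h1 h1 (by positivity) (by positivity)
  have h5 : (t : ℝ) ^ 2 * p ≤ 4 := by
    have h6 : (t : ℝ) ≤ 2 * (1 / √p) := by linarith
    have h7 : 2 * (1 / √p) * (2 * (1 / √p)) * p = 4 := by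
      calc 2 * (1 / √p) * (2 * (1 / √p)) * p
          = 2 * (1 / √p) * (2 * (1 / √p)) * (√p * √p) := by rw [hss]
        _ = 4 := by
          field_simp
          norm_num
    rw [← h7]
    apply mul_le_mul_of_nonneg_right _ hp.le
    rw [sq]
    exact mul_le_mul h6 h6 (by positivity) (by positivity)
  have hx0 : 0 ≤ (2 + c) * p := by positivity
  have hx : 1 - 2 * p - c * p = 1 - (2 + c) * p := by ring
  rw [hx]
  have hpos : 0 ≤ 1 - (2 + c) * p := by linarith
  have h6 : (1 - (2 + c) * p) ^ (64 * t ^ 2) ≤ (1 - (2 + c) * p) ^ (64 * t ^ 2 - 1) :=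
    pow_le_pow_of_le_one hpos (by linarith) (Nat.sub_le _ _)
  have h7 : Real.exp (-(512 * (2 + c))) ≤ (1 - (2 + c) * p) ^ (64 * t ^ 2) := by
    calc Real.exp (-(512 * (2 + c))) ≤ Real.exp (-(2 * ((2 + c) * p))) ^ (64 * t ^ 2) := by
          rw [← Real.exp_nat_mul]
          apply Real.exp_le_exp.2
          push_cast
          have h8 : 64 * (t : ℝ) ^ 2 * -(2 * ((2 + c) * p)) = -(128 * (2 + c) * (t ^ 2 * p)) := by
            ring
          rw [h8]
          have h9 : 128 * (2 + c) * (t ^ 2 * p) ≤ 128 * (2 + c) * 4 :=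
            mul_le_mul_of_nonneg_left h5 (by positivity)
          linarith
      _ ≤ _ := pow_le_pow_left₀ (Real.exp_pos _).le (one_sub_ge hx0 hp2) _
  have h8 : 0 ≤ (1 - (2 + c) * p) ^ (64 * t ^ 2 - 1) := pow_nonneg hpos _
  calc Real.exp (-(512 * (2 + c))) ≤ 1 * (1 - (2 + c) * p) ^ (64 * t ^ 2 - 1) := by
        rw [one_mul]
        exact h7.trans h6
    _ ≤ (8 * (t ^ 2 * p)) * (1 - (2 + c) * p) ^ (64 * t ^ 2 - 1) :=
        mul_le_mul_of_nonneg_right (by linarith) h8
    _ = _ := by ring

end WallProb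

open WallProb in
/-- Probability part (WallProb.lean): it is unlikely that `e b` is a seed of colour `c1` and that
all the blocking events `1, ..., m` fail. -/
theorem blockR_prob {c : ℝ} (hc : 0 < c) :
    ∃ δ : ℝ, 0 < δ ∧ δ < 1 ∧ ∀ᶠ p : ℝ in 𝓝[>] 0, ∀ (e : Site ≃ Site) (c1 c2 : Color),
      c1 ≠ Color.green → c2 ≠ Color.green → ∀ (b : Site) (m : ℕ),
      (law p (c * p)).real {ω | ω.1 (e b) = some c1 ∧
        ∀ k, 1 ≤ k → k ≤ m → ¬ BlockR c2 ⌈1 / √p⌉₊ b k (fun z => ω.1 (e z))} ≤
          p * (1 - δ) ^ m := by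
  classical
  refine ⟨Real.exp (-(512 * (2 + c))), Real.exp_pos _, ?_, ?_⟩
  · rw [Real.exp_lt_one_iff]
    linarith
  have hev : ∀ᶠ p : ℝ in 𝓝[>] 0, 0 < p ∧ p < min 1 (1 / (2 * (2 + c))) := by
    have h1 : Set.Ioo (0 : ℝ) (min 1 (1 / (2 * (2 + c)))) ∈ 𝓝[>] (0 : ℝ) :=
      Ioo_mem_nhdsGT (by positivity)
    exact h1
  filter_upwards [hev] with p hp
  obtain ⟨hp0, hp1⟩ := hp
  have hp2 : p ≤ 1 := (hp1.trans_le (min_le_left _ _)).le
  have hp3 : (2 + c) * p ≤ 1 / 2 := by
    have h1 : p ≤ 1 / (2 * (2 + c)) := (hp1.trans_le (min_le_right _ _)).le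
    have h2 : (2 + c) * p ≤ (2 + c) * (1 / (2 * (2 + c))) :=
      mul_le_mul_of_nonneg_left h1 (by positivity)
    have h3 : (2 + c) * (1 / (2 * (2 + c))) = 1 / 2 := by
      field_simp
    linarith
  have hq : 0 ≤ c * p := by positivity
  have hpq : 2 * p + c * p ≤ 1 := by linarith
  have hδ := numeric hc hp0 hp2 hp3
  set t := ⌈1 / √p⌉₊ with ht
  have ht0 : 0 < t := Nat.ceil_pos.2 (by positivity)
  set δ := Real.exp (-(512 * (2 + c))) with hδdef
  have := siteLaw_prob hp0.le hq hpq
  have : IsProbabilityMeasure tieLaw := by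
    unfold tieLaw
    infer_instance
  set μ := Measure.infinitePi fun _ : Site => siteLaw p (c * p) with hμ
  intro e c1 c2 hc1 hc2 b m
  have hred : ∀ A : Set (Site → Option Color),
      (law p (c * p)).real {ω | ω.1 ∈ A} = μ.real A := by
    intro A
    have h1 : {ω : (Site → Option Color) × (Site × ℕ → Ranking) | ω.1 ∈ A} = A ×ˢ Set.univ := by
      ext ω
      simp
    rw [h1, measureReal_def, measureReal_def]
    unfold law
    rw [Measure.prod_prod, measure_univ, mul_one]
  set E : ℕ → Set (Site → Option Color) := fun m => {s | s (e b) = some c1 ∧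
    ∀ k, 1 ≤ k → k ≤ m → ¬ BlockR c2 t b k (fun z => s (e z))} with hE
  have hgoal : (law p (c * p)).real {ω | ω.1 (e b) = some c1 ∧
        ∀ k, 1 ≤ k → k ≤ m → ¬ BlockR c2 t b k (fun z => ω.1 (e z))} = μ.real (E m) :=
    hred (E m)
  rw [hgoal]
  clear hgoal
  induction m with
  | zero =>
    rw [pow_zero, mul_one]
    have h1 : E 0 = Set.pi (({e b} : Finset Site) : Set Site) (fun _ => {some c1}) := by
      ext s
      simp only [hE, Set.mem_ofPred_eq, Set.mem_pi, Finset.coe_singleton, Set.mem_singleton_iff,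
        forall_eq]
      constructor
      · exact fun h => h.1
      · intro h
        exact ⟨h, fun k h1 h2 => absurd (h1.trans h2) (by norm_num)⟩
    rw [h1, measureReal_def, hμ, Measure.infinitePi_pi _ (fun _ _ => MeasurableSet.of_discrete),
      Finset.prod_singleton, siteLaw_some hc1, ENNReal.toReal_ofReal hp0.le]
  | succ m ih =>
    have h1 : E (m + 1) = E m ∩ {s | ¬ BlockR c2 t b (m + 1) (fun z => s (e z))} := by
      ext s
      simp only [hE, Set.mem_ofPred_eq, Set.mem_inter_iff]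
      constructor
      · rintro ⟨h2, h3⟩
        exact ⟨⟨h2, fun k h4 h5 => h3 k h4 (by omega)⟩, h3 (m + 1) (by omega) le_rfl⟩
      · rintro ⟨⟨h2, h3⟩, h4⟩
        refine ⟨h2, fun k h5 h6 => ?_⟩
        rcases Nat.lt_or_ge k (m + 1) with h7 | h7
        · exact h3 k h5 (by omega)
        · have h8 : k = m + 1 := by omega
          rw [h8]
          exact h4
    have h2 : μ (E (m + 1)) = μ (E m) * μ {s | ¬ BlockR c2 t b (m + 1) (fun z => s (e z))} := by
      rw [h1, hμ]
      apply indep_sets (siteLaw p (c * p))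
        ((insert b ((Finset.Icc 1 m).biUnion (fun k => blk t b k))).map e.toEmbedding)
        ((blk t b (m + 1)).map e.toEmbedding)
      · rw [Finset.disjoint_map, Finset.disjoint_left]
        intro w hw hw'
        rw [mem_blk] at hw'
        have h3 : (8 * t * ((m + 1 : ℕ) : ℤ) : ℤ) = 8 * t * m + 8 * t := by
          push_cast
          ring
        rw [h3] at hw'
        have h4 : (0 : ℤ) < t := by exact_mod_cast ht0
        have h5 : (0 : ℤ) ≤ 8 * t * m := by positivity
        rw [Finset.mem_insert, Finset.mem_biUnion] at hw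
        rcases hw with rfl | ⟨k, hk, hw⟩
        · omega
        · rw [Finset.mem_Icc] at hk
          rw [mem_blk] at hw
          have h6 : (8 * t * (k + 1) : ℤ) ≤ 8 * t * m + 8 * t := by
            have h7 : (k : ℤ) ≤ m := by exact_mod_cast hk.2
            have h8 : (8 * t * (k + 1) : ℤ) ≤ 8 * t * (m + 1) := by
              apply mul_le_mul_of_nonneg_left _ (by positivity)
              linarith
            linarith
          omega
      · intro s s' hss hs
        simp only [hE, Set.mem_ofPred_eq] at hs ⊢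
        refine ⟨?_, ?_⟩
        · rw [← hss (e b) (Finset.mem_map.2 ⟨b, Finset.mem_insert_self _ _, rfl⟩)]
          exact hs.1
        · intro k hk1 hk2 hB
          apply hs.2 k hk1 hk2
          refine blockR_congr ?_ hB
          intro w hw
          exact (hss (e w) (Finset.mem_map.2 ⟨w, Finset.mem_insert_of_mem
            (Finset.mem_biUnion.2 ⟨k, Finset.mem_Icc.2 ⟨hk1, hk2⟩, hw⟩), rfl⟩)).symm
      · intro s s' hss hs
        simp only [Set.mem_ofPred_eq] at hs ⊢
        intro hB
        apply hs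
        refine blockR_congr ?_ hB
        intro w hw
        exact (hss (e w) (Finset.mem_map.2 ⟨w, hw, rfl⟩)).symm
    have hmeasB : MeasurableSet {s : Site → Option Color |
        BlockR c2 t b (m + 1) (fun z => s (e z))} := by
      have h3 : {s : Site → Option Color | BlockR c2 t b (m + 1) (fun z => s (e z))} =
          ⋃ r ∈ cen t b (m + 1), ({s | s (e r) = some c2} ∩
            ⋂ w ∈ blk t b (m + 1), {s | w ≠ r → s (e w) = none}) := by
        ext s
        simp only [Set.mem_ofPred_eq, Set.mem_iUnion, Set.mem_inter_iff, Set.mem_iInter, exists_prop]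
        exact blockR_iff
      rw [h3]
      apply Finset.measurableSet_biUnion
      intro r _
      apply MeasurableSet.inter
      · change MeasurableSet ((fun s : Site → Option Color => s (e r)) ⁻¹' {some c2})
        exact measurable_pi_apply (e r) (MeasurableSet.of_discrete (s := {some c2}))
      · apply Finset.measurableSet_biInter
        intro w _
        by_cases hwr : w = r
        · simp [hwr]
        · have h4 : {s : Site → Option Color | w ≠ r → s (e w) = none} =
              (fun s : Site → Option Color => s (e w)) ⁻¹' {none} := by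
            ext s
            simp [hwr]
          rw [h4]
          exact measurable_pi_apply (e w) (MeasurableSet.of_discrete (s := {none}))
    have h3 : μ.real {s | ¬ BlockR c2 t b (m + 1) (fun z => s (e z))} ≤ 1 - δ := by
      have h4 : {s : Site → Option Color | ¬ BlockR c2 t b (m + 1) (fun z => s (e z))} =
          {s | BlockR c2 t b (m + 1) (fun z => s (e z))}ᶜ := rfl
      rw [h4, probReal_compl_eq_one_sub hmeasB]
      have h5 := block_prob hp0.le hq hpq e hc2 t b (m + 1)
      linarith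
    have h4 : μ.real (E (m + 1)) =
        μ.real (E m) * μ.real {s | ¬ BlockR c2 t b (m + 1) (fun z => s (e z))} := by
      rw [measureReal_def, h2, ENNReal.toReal_mul]
      rfl
    rw [h4, pow_succ, ← mul_assoc]
    exact mul_le_mul ih h3 measureReal_nonneg (le_trans measureReal_nonneg ih)

end Pool.Agent.Helper69.TC
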